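import Pool.Agent.H69.Ram3

namespace Pool.Agent.Results.MP_71554c_al.Yes
open Pool.Agent.H69.Va Monoid

theorem result : ∀ (G0 : Type) [Group G0] (G : Bool → Type) [∀ i, Group (G i)]
    (φ : ∀ i, G0 →* G i), (∀ i, Function.Injective (φ i)) → (∀ i, ResAmen (G i)) → VirtCyc G0 →
    (∀ i, VirtRetract (φ i).range) → ResAmen (PushoutI φ) :=
  fun _ _ _ _ φ h1 h2 h3 h4 => ram_main φ h1 h3 h4 h2

end Pool.Agent.Results.MP_71554c_al.Yes
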